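import Mathlib

/-!
# MP_befaea_co: the largest square in a unit cube of odd dimension

`f(2, 2n+1) = √(n + 1/8)` for every `n ≥ 1`.

The two diagonals `c`, `d` of a square of edge `s` are orthogonal vectors with `|c|² = |d|² = 2 s²`,
and if the square lies in `[0,1]^N` then all their coordinates are in `[-1,1]`.  If `N` is odd and
`2 s² > N - 3/4`, then `∑ (1 - |c_i|) < 1/2` and `∑ (1 - |d_i|) < 1/2`, so `∑ c_i d_i` is at
distance less than `1` from an odd integer and cannot vanish.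
-/

set_option autoImplicit false

namespace Pool.Agent.Results.MP_befaea_co.OddDimension

/-- An `m`-dimensional cube of edge `s` fits in the unit cube `[0,1]^N`: some congruent copy of
`[0,s]^m` (its image under an affine isometric embedding of `ℝ^m` in `ℝ^N`) lies in `[0,1]^N`. -/
def CubeFits (m N : ℕ) (s : ℝ) : Prop :=
  ∃ φ : EuclideanSpace ℝ (Fin m) →ᵃⁱ[ℝ] EuclideanSpace ℝ (Fin N),
    ∀ p : EuclideanSpace ℝ (Fin m), (∀ i, 0 ≤ p i ∧ p i ≤ s) → ∀ j, 0 ≤ φ p j ∧ φ p j ≤ 1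

/-- The numerical heart: two orthogonal vectors of equal length in `[-1,1]^(2n+1)`. -/
theorem core (n : ℕ) (c d : Fin (2 * n + 1) → ℝ) (t : ℝ) (hc : ∀ i, |c i| ≤ 1)
    (hd : ∀ i, |d i| ≤ 1) (hcc : ∑ i, c i ^ 2 = t) (hdd : ∑ i, d i ^ 2 = t)
    (hcd : ∑ i, c i * d i = 0) : t ≤ 2 * n + 1 / 4 := by
  by_contra hlt
  push Not at hlt
  -- a one-variable bound
  have key : ∀ x : Fin (2 * n + 1) → ℝ, (∀ i, |x i| ≤ 1) → ∑ i, x i ^ 2 = t →
      ∑ i, (1 - |x i|) < 1 / 2 := by
    intro x hx hxx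
    have hsum : ∑ i, (1 - x i ^ 2) = 2 * n + 1 - t := by
      rw [Finset.sum_sub_distrib, hxx]
      simp
    have hnn : ∀ i, 0 ≤ 1 - x i ^ 2 := by
      intro i
      have h1 := hx i
      have h2 : x i ^ 2 = |x i| ^ 2 := (sq_abs _).symm
      rw [h2]
      nlinarith [abs_nonneg (x i)]
    have hone : ∀ i, 1 - x i ^ 2 ≤ 2 * n + 1 - t := by
      intro i
      rw [← hsum]
      exact Finset.single_le_sum (f := fun i => 1 - x i ^ 2) (fun j _ => hnn j)
        (Finset.mem_univ i)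
    have hhalf : ∀ i, 1 - |x i| ≤ 2 / 3 * (1 - x i ^ 2) := by
      intro i
      have h1 := hx i
      have h2 : x i ^ 2 = |x i| ^ 2 := (sq_abs _).symm
      have h3 := hone i
      rw [h2] at h3 ⊢
      have h4 : 1 / 2 ≤ |x i| := by
        by_contra h
        push Not at h
        nlinarith [abs_nonneg (x i)]
      nlinarith
    calc ∑ i, (1 - |x i|) ≤ ∑ i, 2 / 3 * (1 - x i ^ 2) := Finset.sum_le_sum fun i _ => hhalf i
      _ = 2 / 3 * (2 * n + 1 - t) := by rw [← Finset.mul_sum, hsum]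
      _ < 1 / 2 := by linarith
  have hC := key c hc hcc
  have hD := key d hd hdd
  -- signs
  set S : Finset (Fin (2 * n + 1)) := Finset.univ.filter fun i => c i * d i < 0 with hS
  have hsign : ∀ i, |(if c i * d i < 0 then (-1 : ℝ) else 1) - c i * d i| ≤
      (1 - |c i|) + (1 - |d i|) := by
    intro i
    have h1 : |c i * d i| = |c i| * |d i| := abs_mul _ _
    have h2 : 0 ≤ (1 - |c i|) * (1 - |d i|) :=
      mul_nonneg (by linarith [hc i]) (by linarith [hd i])
    have h5 : |c i| * |d i| ≤ 1 := by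
      calc |c i| * |d i| ≤ 1 * 1 := mul_le_mul (hc i) (hd i) (abs_nonneg _) zero_le_one
        _ = 1 := one_mul 1
    split_ifs with h
    · rw [abs_of_neg h] at h1
      rw [abs_le]
      constructor <;> nlinarith
    · push Not at h
      rw [abs_of_nonneg h] at h1
      rw [abs_le]
      constructor <;> nlinarith
  have hval : ∑ i, ((if c i * d i < 0 then (-1 : ℝ) else 1) - c i * d i) =
      2 * n + 1 - 2 * S.card := by
    rw [Finset.sum_sub_distrib, hcd]
    have : ∀ i, (if c i * d i < 0 then (-1 : ℝ) else 1) =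
        1 - 2 * (if c i * d i < 0 then 1 else 0) := by
      intro i
      split_ifs <;> norm_num
    simp only [this]
    rw [Finset.sum_sub_distrib, ← Finset.mul_sum, Finset.sum_boole]
    simp [hS]
  have habs : |(2 * n + 1 - 2 * S.card : ℝ)| < 1 := by
    rw [← hval]
    calc |∑ i, ((if c i * d i < 0 then (-1 : ℝ) else 1) - c i * d i)|
        ≤ ∑ i, |(if c i * d i < 0 then (-1 : ℝ) else 1) - c i * d i| :=
          Finset.abs_sum_le_sum_abs _ _
      _ ≤ ∑ i, ((1 - |c i|) + (1 - |d i|)) := Finset.sum_le_sum fun i _ => hsign i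
      _ = ∑ i, (1 - |c i|) + ∑ i, (1 - |d i|) := Finset.sum_add_distrib
      _ < 1 := by linarith
  have hint : |(2 * n + 1 - 2 * S.card : ℤ)| < 1 := by
    have : ((|(2 * n + 1 - 2 * S.card : ℤ)| : ℤ) : ℝ) < 1 := by
      push_cast
      exact habs
    exact_mod_cast this
  rw [abs_lt] at hint
  omega

theorem upper (n : ℕ) (s : ℝ) (h0 : 0 ≤ s) (h : CubeFits 2 (2 * n + 1) s) :
    s ≤ Real.sqrt (n + 1 / 8) := by
  obtain ⟨φ, hφ⟩ := h
  let e : ℝ → ℝ → EuclideanSpace ℝ (Fin 2) := fun x y => WithLp.toLp 2 ![x, y]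
  have hin : ∀ x y, 0 ≤ x → x ≤ s → 0 ≤ y → y ≤ s → ∀ j, 0 ≤ φ (e x y) j ∧ φ (e x y) j ≤ 1 := by
    intro x y hx hx' hy hy'
    apply hφ
    intro i
    fin_cases i
    · exact ⟨hx, hx'⟩
    · exact ⟨hy, hy'⟩
  let f := φ.linearIsometry
  have hf : ∀ p q, φ p - φ q = f (p - q) := by
    intro p q
    have := φ.map_vsub p q
    simp only [vsub_eq_sub] at this
    exact this.symm
  have hc : φ (e s s) - φ (e 0 0) = f (e s s) := by
    rw [hf]; congr 1; ext i; fin_cases i <;> simp [e]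
  have hd : φ (e s 0) - φ (e 0 s) = f (e s (-s)) := by
    rw [hf]; congr 1; ext i; fin_cases i <;> simp [e]
  have hcs : ∑ i, (f (e s s) i) ^ 2 = 2 * s ^ 2 := by
    have h1 : ‖f (e s s)‖ ^ 2 = ‖e s s‖ ^ 2 := by rw [f.norm_map]
    rw [EuclideanSpace.real_norm_sq_eq, EuclideanSpace.real_norm_sq_eq] at h1
    rw [h1]
    simp [e, Fin.sum_univ_two]
    ring
  have hds : ∑ i, (f (e s (-s)) i) ^ 2 = 2 * s ^ 2 := by
    have h1 : ‖f (e s (-s))‖ ^ 2 = ‖e s (-s)‖ ^ 2 := by rw [f.norm_map]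
    rw [EuclideanSpace.real_norm_sq_eq, EuclideanSpace.real_norm_sq_eq] at h1
    rw [h1]
    simp [e, Fin.sum_univ_two]
    ring
  have hcd : ∑ i, f (e s s) i * f (e s (-s)) i = 0 := by
    have h1 : inner ℝ (f (e s s)) (f (e s (-s))) = inner ℝ (e s s) (e s (-s)) :=
      f.inner_map_map _ _
    rw [PiLp.inner_apply, PiLp.inner_apply] at h1
    simp only [RCLike.inner_apply, conj_trivial] at h1
    have h2 : ∑ i, f (e s s) i * f (e s (-s)) i = ∑ i, f (e s (-s)) i * f (e s s) i :=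
      Finset.sum_congr rfl fun i _ => mul_comm _ _
    rw [h2, h1]
    simp [e, Fin.sum_univ_two]
  have hc1 : ∀ i, |f (e s s) i| ≤ 1 := by
    intro i
    have h1 := hin s s h0 le_rfl h0 le_rfl i
    have h2 := hin 0 0 le_rfl h0 le_rfl h0 i
    rw [← hc, abs_le]
    simp only [PiLp.sub_apply]
    constructor <;> linarith
  have hd1 : ∀ i, |f (e s (-s)) i| ≤ 1 := by
    intro i
    have h1 := hin s 0 h0 le_rfl le_rfl h0 i
    have h2 := hin 0 s le_rfl h0 h0 le_rfl i
    rw [← hd, abs_le]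
    simp only [PiLp.sub_apply]
    constructor <;> linarith
  have := core n _ _ _ hc1 hd1 hcs hds hcd
  apply Real.le_sqrt_of_sq_le
  linarith

/-! ### The construction -/

/-- The first diagonal of the extremal square. -/
noncomputable def cc (i : ℕ) : ℝ := if i = 0 then 1 / 2 else 1

/-- The second diagonal of the extremal square. -/
noncomputable def dd (i : ℕ) : ℝ :=
  if i = 0 then 1 else if i = 1 then 1 / 2 else if Even i then -1 else 1

theorem sum_cc (k : ℕ) : ∑ i ∈ Finset.range (2 * (k + 1) + 1), cc i ^ 2 = 2 * (k + 1) + 1 / 4 := by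
  induction k with
  | zero => norm_num [Finset.sum_range_succ, cc]
  | succ k ih =>
    rw [show 2 * (k + 1 + 1) + 1 = 2 * (k + 1) + 1 + 1 + 1 by ring, Finset.sum_range_succ,
      Finset.sum_range_succ, ih]
    simp only [cc]
    rw [if_neg (by omega), if_neg (by omega)]
    push_cast
    ring

theorem sum_dd (k : ℕ) : ∑ i ∈ Finset.range (2 * (k + 1) + 1), dd i ^ 2 = 2 * (k + 1) + 1 / 4 := by
  induction k with
  | zero => norm_num [Finset.sum_range_succ, dd]
  | succ k ih =>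
    rw [show 2 * (k + 1 + 1) + 1 = 2 * (k + 1) + 1 + 1 + 1 by ring, Finset.sum_range_succ,
      Finset.sum_range_succ, ih]
    have h1 : dd (2 * (k + 1) + 1) ^ 2 = 1 := by
      simp only [dd]
      rw [if_neg (by omega), if_neg (by omega)]
      split_ifs <;> norm_num
    have h2 : dd (2 * (k + 1) + 1 + 1) ^ 2 = 1 := by
      simp only [dd]
      rw [if_neg (by omega), if_neg (by omega)]
      split_ifs <;> norm_num
    rw [h1, h2]
    push_cast
    ring

theorem sum_cd (k : ℕ) : ∑ i ∈ Finset.range (2 * (k + 1) + 1), cc i * dd i = 0 := by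
  induction k with
  | zero => norm_num [Finset.sum_range_succ, cc, dd]
  | succ k ih =>
    rw [show 2 * (k + 1 + 1) + 1 = 2 * (k + 1) + 1 + 1 + 1 by ring, Finset.sum_range_succ,
      Finset.sum_range_succ, ih]
    have h1 : cc (2 * (k + 1) + 1) * dd (2 * (k + 1) + 1) = 1 := by
      simp only [cc, dd]
      rw [if_neg (by omega), if_neg (by omega), if_neg (by omega), if_neg (by grind)]
      norm_num
    have h2 : cc (2 * (k + 1) + 1 + 1) * dd (2 * (k + 1) + 1 + 1) = -1 := by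
      simp only [cc, dd]
      rw [if_neg (by omega), if_neg (by omega), if_neg (by omega), if_pos (by grind)]
      norm_num
    rw [h1, h2]
    ring

theorem cases_cd (i : ℕ) : (cc i = 1 / 2 ∧ dd i = 1) ∨ (cc i = 1 ∧ dd i = 1 / 2) ∨
    (cc i = 1 ∧ dd i = 1) ∨ (cc i = 1 ∧ dd i = -1) := by
  simp only [cc, dd]
  split_ifs <;> simp_all

theorem lower (k : ℕ) : CubeFits 2 (2 * (k + 1) + 1) (Real.sqrt ((k + 1 : ℕ) + 1 / 8)) := by
  set s := Real.sqrt ((k + 1 : ℕ) + 1 / 8) with hs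
  have hpos : 0 < s := Real.sqrt_pos.mpr (by positivity)
  have hs2 : s ^ 2 = k + 1 + 1 / 8 := by
    rw [hs, Real.sq_sqrt (by positivity)]
    push_cast
    ring
  let a : Fin (2 * (k + 1) + 1) → ℝ := fun i => (cc i + dd i) / 2
  let b : Fin (2 * (k + 1) + 1) → ℝ := fun i => (cc i - dd i) / 2
  have h1 : ∑ i : Fin (2 * (k + 1) + 1), cc i ^ 2 = 2 * (k + 1) + 1 / 4 := by
    rw [Fin.sum_univ_eq_sum_range (fun i => cc i ^ 2)]
    exact sum_cc k
  have h2 : ∑ i : Fin (2 * (k + 1) + 1), dd i ^ 2 = 2 * (k + 1) + 1 / 4 := by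
    rw [Fin.sum_univ_eq_sum_range (fun i => dd i ^ 2)]
    exact sum_dd k
  have h3 : ∑ i : Fin (2 * (k + 1) + 1), cc i * dd i = 0 := by
    rw [Fin.sum_univ_eq_sum_range (fun i => cc i * dd i)]
    exact sum_cd k
  have haa : ∑ i, a i ^ 2 = s ^ 2 := by
    have : ∀ i, a i ^ 2 = (1 / 4) * cc i ^ 2 + (1 / 4) * dd i ^ 2 + (1 / 2) * (cc i * dd i) := by
      intro i; simp only [a]; ring
    simp only [this, Finset.sum_add_distrib, ← Finset.mul_sum]
    rw [h1, h2, h3, hs2]
    ring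
  have hbb : ∑ i, b i ^ 2 = s ^ 2 := by
    have : ∀ i, b i ^ 2 = (1 / 4) * cc i ^ 2 + (1 / 4) * dd i ^ 2 - (1 / 2) * (cc i * dd i) := by
      intro i; simp only [b]; ring
    simp only [this, Finset.sum_add_distrib, Finset.sum_sub_distrib, ← Finset.mul_sum]
    rw [h1, h2, h3, hs2]
    ring
  have hab : ∑ i, a i * b i = 0 := by
    have : ∀ i, a i * b i = (1 / 4) * cc i ^ 2 - (1 / 4) * dd i ^ 2 := by
      intro i; simp only [a, b]; ring
    simp only [this, Finset.sum_sub_distrib, ← Finset.mul_sum]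
    rw [h1, h2]
    ring
  let L : EuclideanSpace ℝ (Fin 2) →ₗ[ℝ] EuclideanSpace ℝ (Fin (2 * (k + 1) + 1)) :=
    { toFun := fun p => WithLp.toLp 2 (fun i => (p 0 * a i + p 1 * b i) / s)
      map_add' := by
        intro p q
        ext i
        simp only [PiLp.add_apply]
        ring
      map_smul' := by
        intro r p
        ext i
        simp only [PiLp.smul_apply, smul_eq_mul, RingHom.id_apply]
        ring }
  have hL : ∀ p, ‖L p‖ = ‖p‖ := by
    intro p
    have h4 : ‖L p‖ ^ 2 = ‖p‖ ^ 2 := by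
      rw [EuclideanSpace.real_norm_sq_eq, EuclideanSpace.real_norm_sq_eq]
      have h5 : ∀ i, (L p i) ^ 2 = (p 0 ^ 2 / s ^ 2) * a i ^ 2 + (p 1 ^ 2 / s ^ 2) * b i ^ 2 +
          (2 * p 0 * p 1 / s ^ 2) * (a i * b i) := by
        intro i
        change ((p 0 * a i + p 1 * b i) / s) ^ 2 = _
        field_simp
        ring
      simp only [h5, Finset.sum_add_distrib, ← Finset.mul_sum]
      rw [haa, hbb, hab, Fin.sum_univ_two]
      field_simp
      ring
    exact (sq_eq_sq₀ (norm_nonneg _) (norm_nonneg _)).mp h4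
  let q : EuclideanSpace ℝ (Fin (2 * (k + 1) + 1)) :=
    WithLp.toLp 2 (fun i => 1 / 2 - (a i + b i) / 2)
  refine ⟨{ toFun := fun p => L p + q
            linear := L
            map_vadd' := ?_
            norm_map := hL }, ?_⟩
  · intro p v
    simp only [vadd_eq_add, map_add]
    abel
  · intro p hp j
    change 0 ≤ (p 0 * a j + p 1 * b j) / s + (1 / 2 - (a j + b j) / 2) ∧
      (p 0 * a j + p 1 * b j) / s + (1 / 2 - (a j + b j) / 2) ≤ 1
    have e1 : (p 0 * a j + p 1 * b j) / s = (p 0 / s) * a j + (p 1 / s) * b j := by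
      field_simp
    have x0 : 0 ≤ p 0 / s := div_nonneg (hp 0).1 hpos.le
    have x1 : p 0 / s ≤ 1 := (div_le_one hpos).mpr (hp 0).2
    have y0 : 0 ≤ p 1 / s := div_nonneg (hp 1).1 hpos.le
    have y1 : p 1 / s ≤ 1 := (div_le_one hpos).mpr (hp 1).2
    rw [e1]
    simp only [a, b]
    rcases cases_cd j with ⟨hc, hd⟩ | ⟨hc, hd⟩ | ⟨hc, hd⟩ | ⟨hc, hd⟩ <;> rw [hc, hd] <;>
      constructor <;> linarith

/-- **The largest square in a unit cube of odd dimension.**  For every `n ≥ 1`, the number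
`√(n + 1/8)` is the greatest `s ≥ 0` such that a square of edge `s` fits in `[0,1]^(2n+1)`. -/
theorem result (n : ℕ) (hn : 1 ≤ n) :
    IsGreatest {s : ℝ | 0 ≤ s ∧ CubeFits 2 (2 * n + 1) s} (Real.sqrt (n + 1 / 8)) := by
  constructor
  · refine ⟨Real.sqrt_nonneg _, ?_⟩
    obtain ⟨k, rfl⟩ : ∃ k, n = k + 1 := ⟨n - 1, by omega⟩
    exact lower k
  · rintro s ⟨h0, h⟩
    exact upper n s h0 h

end Pool.Agent.Results.MP_befaea_co.OddDimension
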